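import Pool.Agent.R132.CM.Final

/-!
# Co-meander and Bessel(3) windows of Brownian motion in finite expected time

For every standard Brownian motion `B` there is a random time `T` with `E T < ∞` such that the
window `(B_{T+u} - B_T; 0 ≤ u ≤ 1)` is a Brownian co-meander, and another one such that the window
is a three-dimensional Bessel process.  Both questions have a positive answer.

Idea.  On the grid of mesh `1/n` the target law has an explicit density `g` with respect to the
Gaussian walk.  The weight `W` of a block of length two is the average of `g` over the windows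
inside the block; `E W = 1` and `E W² ≤ 1300` uniformly in `n`.  An anticipating selection (a race
of independent exponential clocks divided by the weights) picks a block with law `W dP` and with
mean index `O(E W²)`.  Compactness (Prokhorov) gives a time with the exact law.
-/

set_option autoImplicit false

open MeasureTheory ProbabilityTheory Filter Topology Set unitInterval
open scoped ENNReal NNReal

namespace Pool.Agent.Results.MP_0f8574_pr.Windows

/-- `V` is a standard Brownian motion in `ℝ³` started at `0` (a random continuous path): it has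
independent increments, and `V_t - V_s` is `√(t - s)` times a standard Gaussian vector. -/
structure IsBM3 {Ω : Type} [MeasurableSpace Ω] (P : Measure Ω)
    (V : Ω → C(ℝ≥0, EuclideanSpace ℝ (Fin 3))) : Prop where
  meas : ∀ t, Measurable (fun ω => V ω t)
  zero : ∀ ω, V ω 0 = 0
  ind : HasIndepIncrements (fun t ω => V ω t) P
  law : ∀ s t : ℝ≥0, s ≤ t → P.map (fun ω => V ω t - V ω s) =
    (stdGaussian (EuclideanSpace ℝ (Fin 3))).map (fun z => Real.sqrt ((t : ℝ) - s) • z)

/-- The window `(w (t + u) - w t; 0 ≤ u ≤ 1)` of the path `w` at the time `t`. -/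
noncomputable def window (w : C(ℝ≥0, ℝ)) (t : ℝ≥0) : C(I, ℝ) :=
  ⟨fun u => w (t + unitInterval.toNNReal u) - w t, by fun_prop⟩

/-- The radial part `(‖v u‖; 0 ≤ u ≤ 1)` of the path `v` in `ℝ³`. -/
noncomputable def radial (v : C(ℝ≥0, EuclideanSpace ℝ (Fin 3))) : C(I, ℝ) :=
  ⟨fun u => ‖v (unitInterval.toNNReal u)‖, by fun_prop⟩

/-- For every standard Brownian motion `B` (a random continuous path on a probability space
`(Ω, P)`) there is a random time `T`, a measurable function of `ω ∈ Ω` and of an auxiliary variable
which is uniform on `[0,1]` and independent of `ω`, with `E T < ∞`, such that the law of the window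
of `B` at `T` on `C[0,1]` has the density `dens (R_1)` with respect to the law of the
three-dimensional Bessel process `R` (the norm of any standard Brownian motion `V` in `ℝ³`). -/
def WindowInFiniteMeanTime (dens : ℝ → ℝ) : Prop :=
  ∀ (Ω Ω' : Type) [MeasurableSpace Ω] [MeasurableSpace Ω'] (P : Measure Ω) (P' : Measure Ω')
    [IsProbabilityMeasure P] [IsProbabilityMeasure P'] (B : Ω → C(ℝ≥0, ℝ))
    (V : Ω' → C(ℝ≥0, EuclideanSpace ℝ (Fin 3))),
    (∀ t, Measurable (fun ω => B ω t)) → IsBrownianReal (fun t ω => B ω t) P → IsBM3 P' V →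
    ∃ T : Ω × I → ℝ≥0, Measurable T ∧ ∫⁻ p, (T p : ℝ≥0∞) ∂(P.prod volume) < ⊤ ∧
      ∀ F : C(I, ℝ) → ℝ≥0∞, @Measurable _ _ (borel C(I, ℝ)) _ F →
        ∫⁻ p, F (window (B p.1) (T p)) ∂(P.prod volume) =
          ∫⁻ ω, ENNReal.ofReal (dens ‖V ω 1‖) * F (radial (V ω)) ∂P'

/-- **Q1 and Q2 have positive answers**: the Brownian co-meander (density `R_1⁻²`) and the
three-dimensional Bessel process (density `1`) are laws of windows of Brownian motion at random
times with finite expectation. -/
theorem result : WindowInFiniteMeanTime (fun r => (r ^ 2)⁻¹) ∧ WindowInFiniteMeanTime (fun _ => 1) := by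
  constructor
  · intro Ω Ω' _ _ P P' _ _ B V hB hBM hV
    obtain ⟨T, h1, h2, h3⟩ := Pool.Agent.R132.CM.main_all 1 le_rfl Ω Ω' P P' B V
      (Pool.Agent.R967.FB.measurable_path hB) hBM ⟨hV.meas, hV.zero, hV.ind, hV.law⟩
    refine ⟨T, h1, h2, fun F hF => ?_⟩
    have h := h3 F hF
    simp only [Pool.Agent.R132.CM.rho, mul_one, one_div] at h
    exact h
  · intro Ω Ω' _ _ P P' _ _ B V hB hBM hV
    obtain ⟨T, h1, h2, h3⟩ := Pool.Agent.R132.CM.main_all 0 (Nat.zero_le _) Ω Ω' P P' B V
      (Pool.Agent.R967.FB.measurable_path hB) hBM ⟨hV.meas, hV.zero, hV.ind, hV.law⟩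
    refine ⟨T, h1, h2, fun F hF => ?_⟩
    have h := h3 F hF
    simp only [Pool.Agent.R132.CM.rho, mul_zero, pow_zero, one_div, inv_one] at h
    exact h

end Pool.Agent.Results.MP_0f8574_pr.Windows
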